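import Pool.Agent.Lib.TG9.Defs4

/-!
# TANK G, BC9: row R6
-/

set_option autoImplicit false

namespace Pool.Agent.TG9h80

open MvPolynomial Module
open Pool.Agent.TG (LB KB)
open Pool.Agent.TG9 (R6Stmt Setup bb zz)

universe u

variable {k K : Type u} [Field k] [Field K] [Algebra k K]

/-- The last member of an independent family is transcendental over the field generated by the
others. -/
theorem transcendental_last {m : ℕ} (u : Fin (m + 1) → K) (hu : AlgebraicIndependent k u) :
    Transcendental (IntermediateField.adjoin k (Set.range fun i : Fin m => u i.castSucc))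
      (u (Fin.last m)) := by
  have h1 := hu.transcendental_adjoin (s := Set.range Fin.castSucc) (i := Fin.last m) (by
    rintro ⟨i, hi⟩
    exact (Fin.castSucc_ne_last i) hi)
  have h2 : u '' Set.range Fin.castSucc = Set.range fun i : Fin m => u i.castSucc :=
    (Set.range_comp u Fin.castSucc).symm
  rw [h2] at h1
  intro h3
  exact h1 (IntermediateField.isAlgebraic_adjoin_iff.1 h3)

theorem r6_aux {m : ℕ} (g : Fin (m + 1 + 1) → K)
    (h1 : AlgebraicIndependent k (fun i : Fin (m + 1) => g i.succ / g 0))
    (b : Fin m → K) (hb : ∀ i : Fin m, b i = g i.castSucc.succ / g 0) (z : K)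
    (hz : z = g (Fin.last (m + 1)) / g 0) :
    (Set.range fun i : Fin (m + 1) => g i.succ / g 0) = insert z (Set.range b) ∧
      AlgebraicIndependent k b ∧ Transcendental (LB k b) z := by
  obtain rfl : b = fun i : Fin m => g i.castSucc.succ / g 0 := funext hb
  refine ⟨?_, ?_, ?_⟩
  · ext x
    constructor
    · rintro ⟨i, rfl⟩
      refine Fin.lastCases ?_ (fun i => ?_) i
      · refine Or.inl ?_
        dsimp only
        rw [hz, Fin.succ_last]
      · exact Or.inr ⟨i, rfl⟩
    · rintro (rfl | ⟨i, rfl⟩)
      · refine ⟨Fin.last m, ?_⟩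
        rw [hz, ← Fin.succ_last]
      · exact ⟨i.castSucc, rfl⟩
  · exact h1.comp (Fin.castSucc (n := m)) (Fin.castSucc_injective m)
  · have h2 := transcendental_last _ h1
    rw [hz, ← Fin.succ_last]
    exact h2

theorem r6 : R6Stmt k K := by
  intro m' p A₀ L c τ c' m q W f h S
  have hq : q (fun j => aeval f (h j)) ≠ 0 := by
    intro h0
    have h1 := S.jac (m' + 1 + 1) h S.hom f
    rw [h0, mul_zero] at h1
    exact mul_ne_zero S.jac_ne S.good.ne h1.symm
  obtain ⟨h1, h2, h3⟩ := S.sep (fun j => aeval f (h j)) hq S.h_ne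
  obtain ⟨h4, h5, h6⟩ := r6_aux (fun j => aeval f (h j)) h1 (bb f h) (fun i => by rw [bb])
    (zz f h) (by rw [zz])
  rw [h4] at h2 h3
  exact ⟨h5, h6, h2, h3⟩

theorem r6Stmt (k K : Type u) [Field k] [Field K] [Algebra k K] : R6Stmt k K := r6

end Pool.Agent.TG9h80
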