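import Pool.Agent.Lib.TG9.Defs3
import Pool.Agent.Lib.TGT.Sep
import Pool.Agent.Lib.ALL_h35.InDiv
import Pool.Agent.Lib.ALLY.Lin

/-!
# TANK G, BC9: row SEP (generic forms give a separable extension)
-/

set_option autoImplicit false

namespace Pool.Agent.TG9h80

open MvPolynomial Module
open Pool.Agent.TG (Bir)
open Pool.Agent.TG9 (SepStmt)
open Pool.Agent.TGT (exists_poly_base exists_poly_span jets_span finrank_omega_le sep_of_jets)

universe u

/-- Values of forms as combinations of the values of the monomials. -/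
theorem aeval_eq_sum_mon {k A : Type*} [Field k] [CommRing A] [Algebra k A] {σ : Type*} [Fintype σ]
    {s : ℕ} [Fintype {μ : σ →₀ ℕ // μ.degree = s}] (y : σ → A)
    {h : MvPolynomial σ k} (hh : h.IsHomogeneous s) :
    aeval y h = ∑ μ : {μ : σ →₀ ℕ // μ.degree = s}, h.coeff μ.1 • (∏ i, y i ^ μ.1 i) := by
  classical
  rw [aeval_def, eval₂_eq']
  have h1 : ∀ μ ∈ h.support, μ.degree = s := by
    intro μ hμ
    have h2 := hh (mem_support_iff.1 hμ)
    rwa [Finsupp.degree_eq_weight_one]
  have h2 : h.support ⊆ Finset.univ.image (Subtype.val : {μ : σ →₀ ℕ // μ.degree = s} → _) := by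
    intro μ hμ
    rw [Finset.mem_image]
    exact ⟨⟨μ, h1 μ hμ⟩, Finset.mem_univ _, rfl⟩
  rw [Finset.sum_subset h2, Finset.sum_image Subtype.val_injective.injOn]
  · refine Finset.sum_congr rfl fun μ _ => ?_
    rw [Algebra.smul_def]
  · intro μ _ hμ
    rw [notMem_support_iff.1 hμ, map_zero, zero_mul]

/-- The jets of a spanning family of a birational model span. -/
theorem jets_span' {k K : Type u} [Field k] [Field K] [Algebra k K] [Algebra.EssFiniteType k K]
    {ι : Type*} [Fintype ι] (e : ι → K) (s₀ : ι) (he : e s₀ ≠ 0)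
    (hP : Bir (Submodule.span k (Set.range e))) :
    Submodule.span K (Set.range fun s : ι => (e s, KaehlerDifferential.D k K (e s))) = ⊤ := by
  classical
  set P := Submodule.span k (Set.range e) with hPd
  have hfin : FiniteDimensional k P := FiniteDimensional.span_of_finite k (Set.finite_range e)
  let b := Module.finBasis k P
  have hne : 0 < finrank k P := by
    rw [finrank_pos_iff_exists_ne_zero]
    exact ⟨⟨e s₀, Submodule.subset_span ⟨s₀, rfl⟩⟩, fun h => he (congrArg Subtype.val h)⟩
  have h1 := jets_span P b hP ⟨0, hne⟩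
  rw [eq_top_iff, ← h1, Submodule.span_le]
  rintro _ ⟨j, rfl⟩
  have h2 : ∀ f ∈ P, (f, KaehlerDifferential.D k K f) ∈
      Submodule.span K (Set.range fun s : ι => (e s, KaehlerDifferential.D k K (e s))) := by
    intro f hf
    induction hf using Submodule.span_induction with
    | mem x hx =>
      obtain ⟨s, rfl⟩ := hx
      exact Submodule.subset_span ⟨s, rfl⟩
    | zero => rw [map_zero]; exact zero_mem _
    | add x y _ _ hx hy =>
      rw [map_add, ← Prod.mk_add_mk]
      exact add_mem hx hy
    | smul c x _ hx =>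
      have h3 : (c • x, KaehlerDifferential.D k K (c • x)) =
          algebraMap k K c • (x, KaehlerDifferential.D k K x) := by
        rw [Derivation.map_smul, algebraMap_smul]
        rfl
      rw [h3]
      exact Submodule.smul_mem _ _ hx
  exact h2 _ (b j).2

/-- Transfer of separability from an intermediate field. -/
theorem sep_transfer {k E : Type u} [Field k] [Field E] [Algebra k E] (K' : IntermediateField k E)
    {ι : Type*} (t : ι → K') (x : K')
    (h : IsSeparable (IntermediateField.adjoin k (Set.range t)) x) :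
    IsSeparable (IntermediateField.adjoin k (Set.range fun i => ((t i : K') : E))) (x : E) := by
  have hmem : ∀ a : IntermediateField.adjoin k (Set.range t),
      (((a : K') : E)) ∈ IntermediateField.adjoin k (Set.range fun i => ((t i : K') : E)) := by
    rintro ⟨a, ha⟩
    have h1 : (a : E) ∈ (IntermediateField.adjoin k (Set.range t)).map K'.val := ⟨a, ha, rfl⟩
    rw [IntermediateField.adjoin_map, ← Set.range_comp] at h1
    exact h1
  let ψ : IntermediateField.adjoin k (Set.range t) →+*
      IntermediateField.adjoin k (Set.range fun i => ((t i : K') : E)) :=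
    { toFun := fun a => ⟨((a : K') : E), hmem a⟩
      map_one' := rfl
      map_mul' := fun _ _ => rfl
      map_zero' := rfl
      map_add' := fun _ _ => rfl }
  have h1 : (minpoly (IntermediateField.adjoin k (Set.range t)) x).Separable := h
  have h2 : ((minpoly (IntermediateField.adjoin k (Set.range t)) x).map ψ).Separable := h1.map
  have h3 : Polynomial.aeval (x : E)
      ((minpoly (IntermediateField.adjoin k (Set.range t)) x).map ψ) = 0 := by
    rw [Polynomial.aeval_def, Polynomial.eval₂_map]
    have h4 : (algebraMap (IntermediateField.adjoin k (Set.range fun i => ((t i : K') : E))) E).comp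
        ψ = (algebraMap K' E).comp (algebraMap (IntermediateField.adjoin k (Set.range t)) K') := rfl
    rw [h4]
    have h5 := Polynomial.hom_eval₂ (minpoly (IntermediateField.adjoin k (Set.range t)) x)
      (algebraMap (IntermediateField.adjoin k (Set.range t)) K') (algebraMap K' E) x
    have h6 : Polynomial.eval₂ (algebraMap (IntermediateField.adjoin k (Set.range t)) K') x
        (minpoly (IntermediateField.adjoin k (Set.range t)) x) = 0 := minpoly.aeval _ x
    rw [h6, map_zero] at h5
    exact h5.symm
  exact h2.of_dvd (minpoly.dvd _ _ h3)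

theorem sep {k E : Type u} [Field k] [Field E] [Algebra k E] : SepStmt k E := by
  classical
  intro hk n d s hd hs y hy htr
  obtain ⟨a₀, ha₀⟩ := hy
  have := ALL.homDim_finite (n + 1) s
  have := Fintype.ofFinite {μ : Fin (n + 1) →₀ ℕ // μ.degree = s}
  set K' := IntermediateField.adjoin k {x : E | ∃ a b, x = y a / y b} with hK'
  let y' : Fin (n + 1) → K' := fun a => ⟨y a / y a₀, IntermediateField.subset_adjoin _ _ ⟨a, a₀, rfl⟩⟩
  have hy'0 : y' a₀ = 1 := Subtype.ext (div_self ha₀)
  -- `K'` is generated by the `y' a`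
  have hgen : ∀ F : IntermediateField k K', (∀ a, y' a ∈ F) → F = ⊤ := by
    intro F hF
    have h1 : K' ≤ F.map K'.val := by
      refine IntermediateField.adjoin_le_iff.2 ?_
      rintro _ ⟨a, b, rfl⟩
      have h2 : y a / y b = ((y' a / y' b : K') : E) := by
        change y a / y b = (y a / y a₀) / (y b / y a₀)
        rw [div_div_div_cancel_right₀ ha₀]
      rw [h2]
      have h3 : y' a / y' b ∈ F := div_mem (hF a) (hF b)
      exact ⟨_, h3, rfl⟩
    rw [eq_top_iff]
    rintro x -
    obtain ⟨z, hz, hzx⟩ := h1 x.2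
    have h3 : z = x := Subtype.ext hzx
    rw [← h3]
    exact hz
  have hFG : (⊤ : IntermediateField k K').FG := by
    refine ⟨Finset.univ.image y', ?_⟩
    refine hgen _ fun a => IntermediateField.subset_adjoin _ _ ?_
    rw [Finset.coe_image, Finset.coe_univ, Set.image_univ]
    exact ⟨a, rfl⟩
  have hEss : Algebra.EssFiniteType k K' := IntermediateField.fg_top_iff.mp hFG
  let e : {μ : Fin (n + 1) →₀ ℕ // μ.degree = s} → K' := fun μ => ∏ i, y' i ^ μ.1 i
  let μ₀ : {μ : Fin (n + 1) →₀ ℕ // μ.degree = s} := ⟨Finsupp.single a₀ s, by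
    rw [Finsupp.degree_single]⟩
  have he₀ : e μ₀ = 1 := by
    change ∏ i, y' i ^ (Finsupp.single a₀ s) i = 1
    refine Finset.prod_eq_one fun i _ => ?_
    by_cases hi : i = a₀
    · rw [hi, hy'0, one_pow]
    · rw [Finsupp.single_eq_of_ne hi, pow_zero]
  have heX : ∀ a, ∃ μ, e μ = y' a := by
    intro a
    refine ⟨⟨Finsupp.single a₀ (s - 1) + Finsupp.single a 1, ?_⟩, ?_⟩
    · rw [map_add, Finsupp.degree_single, Finsupp.degree_single]
      omega
    · change ∏ i, y' i ^ (Finsupp.single a₀ (s - 1) + Finsupp.single a 1 : Fin (n + 1) →₀ ℕ) i = y' a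
      have h1 : ∀ i, y' i ^ (Finsupp.single a₀ (s - 1) + Finsupp.single a 1 :
          Fin (n + 1) →₀ ℕ) i = (if i = a then y' a else 1) := by
        intro i
        rw [Finsupp.add_apply, pow_add]
        by_cases hi : i = a₀
        · rw [hi, hy'0, one_pow, one_pow, one_mul]
          split
          · rename_i h2
            rw [← h2, hy'0]
          · rfl
        · rw [Finsupp.single_eq_of_ne hi, pow_zero, one_mul]
          split
          · rename_i h2
            rw [h2, Finsupp.single_eq_same, pow_one]
          · rename_i h2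
            rw [Finsupp.single_eq_of_ne h2, pow_zero]
      rw [Finset.prod_congr rfl fun i _ => h1 i, Finset.prod_ite_eq' Finset.univ a fun _ => y' a,
        if_pos (Finset.mem_univ _)]
  have hBir : Bir (Submodule.span k (Set.range e)) := by
    refine hgen _ fun a => IntermediateField.subset_adjoin _ _ ?_
    obtain ⟨μ, hμ⟩ := heX a
    exact ⟨1, Submodule.subset_span ⟨μ₀, he₀⟩, y' a, Submodule.subset_span ⟨μ, hμ⟩, by
      rw [div_one]⟩
  have hjets := jets_span' e μ₀ (by rw [he₀]; exact one_ne_zero) hBir
  obtain ⟨hfin, hfr⟩ := finrank_omega_le (k := k) (K := K') htr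
  have hfr' : finrank K' (K' × Ω[K'⁄k]) ≤ d + 1 := by
    rw [finrank_prod, finrank_self]
    omega
  obtain ⟨Δ, hΔ0, hΔ⟩ := exists_poly_span (k := k) hfr' _ hjets
  -- the condition `h 0 (y) ≠ 0`
  let W : MvPolynomial (Fin (n + 1) × {μ : Fin (n + 1) →₀ ℕ // μ.degree = s}) K' :=
    ∑ μ, C (e μ) * X (0, μ)
  have hW : W ≠ 0 := by
    intro h0
    have h1 : eval (fun x : Fin (n + 1) × {μ : Fin (n + 1) →₀ ℕ // μ.degree = s} =>
        if x = (0, μ₀) then (1 : K') else 0) W = 1 := by
      change eval _ (∑ μ, C (e μ) * X (0, μ)) = 1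
      rw [map_sum, Finset.sum_eq_single μ₀]
      · rw [map_mul, eval_C, eval_X, if_pos rfl, he₀, mul_one]
      · intro μ _ hμ
        rw [map_mul, eval_C, eval_X, if_neg, mul_zero]
        intro h2
        exact hμ (Prod.ext_iff.1 h2).2
      · intro h2
        exact absurd (Finset.mem_univ _) h2
    rw [h0, map_zero] at h1
    exact zero_ne_one h1
  obtain ⟨Δ', hΔ'0, hΔ'⟩ := exists_poly_base (k := k) W hW
  let j : Fin (d + 1) × {μ : Fin (n + 1) →₀ ℕ // μ.degree = s} →
      Fin (n + 1) × {μ : Fin (n + 1) →₀ ℕ // μ.degree = s} :=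
    fun x => (Fin.castLE (Nat.succ_le_succ hd) x.1, x.2)
  have hj : Function.Injective j := by
    rintro ⟨a, μ⟩ ⟨b, ν⟩ hab
    have h1 := (Prod.ext_iff.1 hab)
    exact Prod.ext (Fin.castLE_injective (Nat.succ_le_succ hd) h1.1) h1.2
  refine ⟨rename j Δ * Δ', mul_ne_zero ?_ hΔ'0, ?_⟩
  · rw [Ne, map_eq_zero_iff _ (rename_injective j hj)]
    exact hΔ0
  intro h hh hev
  rw [map_mul] at hev
  have hev1 := left_ne_zero_of_mul hev
  have hev2 := right_ne_zero_of_mul hev
  rw [eval_rename] at hev1
  have hval : ∀ i, aeval y (h i) = y a₀ ^ s * ((aeval y' (h i) : K') : E) := by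
    intro i
    have h1 := ALLY.hom_aevalL (hh i) (y a₀) (fun a => ((y' a : K') : E))
    have h2 : (fun a => y a₀ * ((y' a : K') : E)) = y := by
      funext a
      exact mul_div_cancel₀ _ ha₀
    rw [h2] at h1
    rw [h1]
    congr 1
    have h3 : (K'.val.comp (aeval y') : MvPolynomial (Fin (n + 1)) k →ₐ[k] E) =
        aeval (fun a => ((y' a : K') : E)) := by
      apply MvPolynomial.algHom_ext
      intro a
      rw [AlgHom.comp_apply, aeval_X, aeval_X]
      rfl
    rw [← h3]
    rfl
  have hf0 : aeval y' (h 0) ≠ 0 := by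
    have h1 := hΔ' _ hev2
    intro h0
    apply h1
    rw [aeval_eq_sum_mon y' (hh 0)] at h0
    rw [← h0]
    change eval _ (∑ μ, C (e μ) * X (0, μ)) = _
    rw [map_sum]
    refine Finset.sum_congr rfl fun μ _ => ?_
    rw [map_mul, eval_C, eval_X, Algebra.smul_def, mul_comm]
  let f : Fin (d + 1) → K' := fun i => aeval y' (h (Fin.castLE (Nat.succ_le_succ hd) i))
  have hspan : Submodule.span K' (Set.range fun i => (f i, KaehlerDifferential.D k K' (f i))) =
      ⊤ := by
    rw [← hΔ _ hev1]
    congr 2
    ext1 i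
    have h1 : f i = ∑ μ, (h (Fin.castLE (Nat.succ_le_succ hd) i)).coeff μ.1 • e μ :=
      aeval_eq_sum_mon y' (hh _)
    apply Prod.ext
    · rw [Prod.fst_sum]
      exact h1.trans (Finset.sum_congr rfl fun s _ => by rw [Algebra.smul_def]; rfl)
    · rw [Prod.snd_sum]
      conv_lhs => rw [h1]
      rw [map_sum]
      exact Finset.sum_congr rfl fun s _ => by
        rw [Derivation.map_smul, ← algebraMap_smul K']; rfl
  have hc0 : (Fin.castLE (Nat.succ_le_succ hd) (0 : Fin (d + 1))) = (0 : Fin (n + 1)) := rfl
  have hsep := sep_of_jets f hspan 0 hf0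
  set t : Fin d → K' := fun i => f i.succ / f 0 with ht
  have hadj : IntermediateField.adjoin k (Set.range fun i => f i / f 0) =
      IntermediateField.adjoin k (Set.range t) := by
    apply le_antisymm
    · rw [IntermediateField.adjoin_le_iff]
      rintro _ ⟨i, rfl⟩
      refine Fin.cases ?_ (fun i => ?_) i
      · have hf0' : f 0 ≠ 0 := hf0
        dsimp only
        rw [div_self hf0']
        exact one_mem _
      · exact IntermediateField.subset_adjoin _ _ ⟨i, rfl⟩
    · refine IntermediateField.adjoin.mono _ _ _ ?_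
      rintro _ ⟨i, rfl⟩
      exact ⟨i.succ, rfl⟩
  rw [hadj] at hsep
  have hratio : ∀ i : Fin d, aeval y (h (Fin.castLE (Nat.succ_le_succ hd) i.succ)) /
      aeval y (h 0) = ((t i : K') : E) := by
    intro i
    rw [hval, hval, mul_div_mul_left _ _ (pow_ne_zero _ ha₀)]
    rfl
  have hind : AlgebraicIndependent k t := by
    have h1 : Algebra.IsAlgebraic (IntermediateField.adjoin k (Set.range t)) K' := inferInstance
    have h2 : Algebra.IsAlgebraic (Algebra.adjoin k (Set.range t)) K' := by
      constructor
      intro g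
      rw [← IntermediateField.isAlgebraic_adjoin_iff]
      exact h1.isAlgebraic g
    have h3 := Algebra.IsAlgebraic.isTranscendenceBasis_of_lift_le_trdeg_of_finite k t (by
      rw [htr, Cardinal.mk_fin, Cardinal.lift_natCast, Cardinal.lift_natCast])
    exact h3.1
  refine ⟨?_, ?_, ?_⟩
  · rw [hval]
    refine mul_ne_zero (pow_ne_zero _ ha₀) fun h0 => hf0 (Subtype.ext h0)
  · have h1 : (fun i : Fin d => aeval y (h (Fin.castLE (Nat.succ_le_succ hd) i.succ)) /
        aeval y (h 0)) = K'.val ∘ t := by
      funext i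
      exact hratio i
    rw [h1]
    exact hind.map' (f := K'.val) K'.val.injective
  · intro x hx
    change IsSeparable _ x
    have h1 := sep_transfer K' t ⟨x, hx⟩
      (Algebra.IsSeparable.isSeparable (IntermediateField.adjoin k (Set.range t)) (⟨x, hx⟩ : K'))
    have h2 : (fun i : Fin d => aeval y (h (Fin.castLE (Nat.succ_le_succ hd) i.succ)) /
        aeval y (h 0)) = fun i => ((t i : K') : E) := by
      funext i
      exact hratio i
    rw [h2]
    exact h1

theorem sepStmt (k E : Type u) [Field k] [Field E] [Algebra k E] : SepStmt k E := sep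

end Pool.Agent.TG9h80
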